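import Mathlib
import Pool.Prelude.Def_F_0702b569

/-!
# MP_3edce6_co (Ryser's conjecture, r = 5): small chromatic index

For every `r`-partite `r`-uniform hypergraph with chromatic index at most `m` one has
`τ ≤ ⌈m/2⌉ ν`.  For `r = 5` this gives Ryser's bound `τ ≤ 4 ν` whenever the edges can be properly
coloured with `8` colours, in particular if every edge meets at most `7` others.
-/

set_option autoImplicit false

namespace Pool.Agent.Results.MP_3edce6_co.SmallChromaticIndex

open Finset N00f51e3f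

variable {r : ℕ} {V : Fin r → Type}

theorem bip (hr : 1 ≤ r) (A B : Finset (Edge V)) (hd : Disjoint A B)
    (hAA : ∀ e ∈ A, ∀ f ∈ A, e ≠ f → ∀ i, e i ≠ f i)
    (hBB : ∀ e ∈ B, ∀ f ∈ B, e ≠ f → ∀ i, e i ≠ f i) :
    ∃ (C : Finset ((i : Fin r) × V i)) (M : Finset (Edge V)),
      (∀ e ∈ A, ∃ i, (⟨i, e i⟩ : (i : Fin r) × V i) ∈ C) ∧
      (∀ e ∈ B, ∃ i, (⟨i, e i⟩ : (i : Fin r) × V i) ∈ C) ∧
      (∀ e ∈ M, e ∈ A ∨ e ∈ B) ∧
      (∀ e ∈ M, ∀ f ∈ M, e ≠ f → ∀ i, e i ≠ f i) ∧ C.card ≤ M.card := by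
  classical
  set i0 : Fin r := ⟨0, hr⟩ with hi0
  set N : Edge V → Finset (Edge V) := fun a => B.filter (fun b => ∃ i, a i = b i) with hN
  have hNB : ∀ S : Finset (Edge V), S.biUnion N ⊆ B := by
    intro S x hx
    obtain ⟨a, _, ha⟩ := mem_biUnion.1 hx
    exact (mem_filter.1 ha).1
  obtain ⟨S0, hS0, hmax⟩ := exists_max_image A.powerset
    (fun S => (S.card : ℤ) - ((S.biUnion N).card : ℤ)) ⟨∅, empty_mem_powerset A⟩
  rw [mem_powerset] at hS0
  have h0 : (S0.biUnion N).card ≤ S0.card := by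
    have := hmax ∅ (empty_mem_powerset A)
    simp at this
    exact this
  obtain ⟨d, hdd⟩ : ∃ d : ℕ, S0.card = (S0.biUnion N).card + d := ⟨_, (Nat.add_sub_of_le h0).symm⟩
  have hHall : ∀ S ⊆ A, S.card ≤ (S.biUnion N).card + d := by
    intro S hS
    have := hmax S (mem_powerset.2 hS)
    omega
  have hex : ∃ f : A → Edge V ⊕ Fin d, Function.Injective f ∧
      ∀ x, f x ∈ (N x.1).disjSum (univ : Finset (Fin d)) := by
    rw [← Finset.all_card_le_biUnion_card_iff_exists_injective]
    intro s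
    by_cases hs : s = ∅
    · subst hs; simp
    obtain ⟨a0, ha0⟩ := nonempty_iff_ne_empty.2 hs
    have h1 : ((s.map (Function.Embedding.subtype _)).biUnion N).disjSum (univ : Finset (Fin d)) ⊆
        s.biUnion (fun x => (N x.1).disjSum (univ : Finset (Fin d))) := by
      intro y hy
      rw [mem_disjSum] at hy
      rw [mem_biUnion]
      rcases hy with ⟨b, hb, rfl⟩ | ⟨j, hj, rfl⟩
      · obtain ⟨a, ha, hab⟩ := mem_biUnion.1 hb
        obtain ⟨a', ha', rfl⟩ := mem_map.1 ha
        exact ⟨a', ha', inl_mem_disjSum.2 hab⟩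
      · exact ⟨a0, ha0, inr_mem_disjSum.2 hj⟩
    have h2 := card_le_card h1
    rw [card_disjSum, card_univ, Fintype.card_fin] at h2
    have h3 := hHall (s.map (Function.Embedding.subtype _)) (by
      intro x hx
      obtain ⟨a', _, rfl⟩ := mem_map.1 hx
      exact a'.2)
    rw [card_map] at h3
    exact h3.trans h2
  obtain ⟨f, hfinj, hf⟩ := hex
  have hidx : ∀ a b : Edge V, ∃ i : Fin r, (∃ i', a i' = b i') → a i = b i := by
    intro a b
    by_cases h : ∃ i', a i' = b i'
    · obtain ⟨i, hi⟩ := h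
      exact ⟨i, fun _ => hi⟩
    · exact ⟨i0, fun h' => absurd h' h⟩
  choose idx hidx using hidx
  set c : Edge V → (i : Fin r) × V i := fun b =>
    if h : ∃ a : A, f a = Sum.inl b then ⟨idx h.choose.1 b, b (idx h.choose.1 b)⟩
    else ⟨i0, b i0⟩ with hc
  set c' : Fin d → Finset ((i : Fin r) × V i) := fun j =>
    if h : ∃ a : A, f a = Sum.inr j then {⟨i0, h.choose.1 i0⟩} else ∅ with hc'
  refine ⟨B.image c ∪ (univ : Finset (Fin d)).biUnion c', S0 ∪ (B \ S0.biUnion N), ?_, ?_, ?_, ?_,
    ?_⟩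
  · intro e he
    rcases hfe : f ⟨e, he⟩ with b | j
    · have h1 := hf ⟨e, he⟩
      rw [hfe, inl_mem_disjSum, hN, mem_filter] at h1
      have hex : ∃ a : A, f a = Sum.inl b := ⟨_, hfe⟩
      have h2 : hex.choose = ⟨e, he⟩ := hfinj (hex.choose_spec.trans hfe.symm)
      have h3 : c b = ⟨idx e b, b (idx e b)⟩ := by
        simp only [hc]
        rw [dif_pos hex, h2]
      have h4 := hidx e b h1.2
      refine ⟨idx e b, mem_union_left _ (mem_image.2 ⟨b, h1.1, ?_⟩)⟩
      rw [h3, h4]
    · have hex : ∃ a : A, f a = Sum.inr j := ⟨_, hfe⟩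
      have h2 : hex.choose = ⟨e, he⟩ := hfinj (hex.choose_spec.trans hfe.symm)
      refine ⟨i0, mem_union_right _ (mem_biUnion.2 ⟨j, mem_univ j, ?_⟩)⟩
      simp only [hc']
      rw [dif_pos hex, h2]
      exact mem_singleton_self _
  · intro e he
    by_cases h : ∃ a : A, f a = Sum.inl e
    · refine ⟨idx h.choose.1 e, mem_union_left _ (mem_image.2 ⟨e, he, ?_⟩)⟩
      simp only [hc]
      rw [dif_pos h]
    · refine ⟨i0, mem_union_left _ (mem_image.2 ⟨e, he, ?_⟩)⟩
      simp only [hc]
      rw [dif_neg h]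
  · intro x hx
    rw [mem_union, mem_sdiff] at hx
    rcases hx with h | h
    · exact Or.inl (hS0 h)
    · exact Or.inr h.1
  · have key : ∀ a ∈ S0, ∀ b ∈ B \ S0.biUnion N, ∀ i, a i ≠ b i := by
      intro a ha b hb i hcon
      rw [mem_sdiff] at hb
      exact hb.2 (mem_biUnion.2 ⟨a, ha, mem_filter.2 ⟨hb.1, ⟨i, hcon⟩⟩⟩)
    intro e he g hg hne
    rw [mem_union] at he hg
    rcases he with he | he <;> rcases hg with hg | hg
    · exact hAA e (hS0 he) g (hS0 hg) hne
    · exact key e he g hg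
    · exact fun i => (key g hg e he i).symm
    · exact hBB e (mem_sdiff.1 he).1 g (mem_sdiff.1 hg).1 hne
  · have h1 : (B.image c ∪ (univ : Finset (Fin d)).biUnion c').card ≤ B.card + d := by
      refine (card_union_le _ _).trans (Nat.add_le_add card_image_le ?_)
      refine card_biUnion_le.trans ?_
      calc ∑ j, (c' j).card ≤ ∑ _j : Fin d, 1 := by
            refine sum_le_sum fun j _ => ?_
            simp only [hc']
            split_ifs
            · rw [card_singleton]
            · simp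
        _ = d := by simp
    have h2 : Disjoint S0 (B \ S0.biUnion N) :=
      disjoint_of_subset_left hS0 (disjoint_of_subset_right sdiff_subset hd)
    rw [card_union_of_disjoint h2]
    have h3 : (B \ S0.biUnion N).card + (S0.biUnion N).card = B.card :=
      card_sdiff_add_card_eq_card (hNB S0)
    omega

theorem card_le_matching (H M : Finset (Edge V)) (hM : ∀ e ∈ M, e ∈ H)
    (hd : ∀ e ∈ M, ∀ f ∈ M, e ≠ f → ∀ i, e i ≠ f i) : M.card ≤ matchingNumber H := by
  refine le_csSup ⟨H.card, ?_⟩ ⟨M, hM, ?_, rfl⟩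
  · rintro n ⟨M', hM', _, rfl⟩
    exact card_le_card hM'
  · intro e he f hf hne
    exact hd e he f hf hne

theorem colour_bound (hr : 1 ≤ r) (m : ℕ) (H : Finset (Edge V)) (c : Edge V → ℕ)
    (hcm : ∀ e ∈ H, c e < m) (hc : ∀ e ∈ H, ∀ f ∈ H, e ≠ f → (∃ i, e i = f i) → c e ≠ c f) :
    coverNumber H ≤ (m + 1) / 2 * matchingNumber H := by
  classical
  set t := (m + 1) / 2 with ht
  have hpair : ∀ j : ℕ, ∃ C : Finset ((i : Fin r) × V i),
      (∀ e ∈ H, c e / 2 = j → ∃ i, (⟨i, e i⟩ : (i : Fin r) × V i) ∈ C) ∧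
      C.card ≤ matchingNumber H := by
    intro j
    have hcol : ∀ i : ℕ, ∀ e ∈ H.filter (fun e => c e = i), ∀ f ∈ H.filter (fun e => c e = i),
        e ≠ f → ∀ k, e k ≠ f k := by
      intro i e he f hf hne k hk
      rw [mem_filter] at he hf
      exact hc e he.1 f hf.1 hne ⟨k, hk⟩ (he.2.trans hf.2.symm)
    obtain ⟨C, M, h1, h2, h3, h4, h5⟩ := bip hr (H.filter (fun e => c e = 2 * j))
      (H.filter (fun e => c e = 2 * j + 1))
      (by
        rw [disjoint_left]
        intro e he hf
        rw [mem_filter] at he hf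
        omega) (hcol _) (hcol _)
    refine ⟨C, ?_, h5.trans (card_le_matching H M ?_ h4)⟩
    · intro e he hej
      have : c e = 2 * j ∨ c e = 2 * j + 1 := by omega
      rcases this with h | h
      · exact h1 e (mem_filter.2 ⟨he, h⟩)
      · exact h2 e (mem_filter.2 ⟨he, h⟩)
    · intro e he
      rcases h3 e he with h | h
      · exact (mem_filter.1 h).1
      · exact (mem_filter.1 h).1
  choose C h1 h2 using hpair
  have hle : coverNumber H ≤ ((range t).biUnion C).card := by
    refine Nat.sInf_le ⟨(range t).biUnion C, ?_, rfl⟩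
    intro e he
    obtain ⟨i, hi⟩ := h1 (c e / 2) e he rfl
    refine ⟨i, mem_biUnion.2 ⟨c e / 2, mem_range.2 ?_, hi⟩⟩
    have := hcm e he
    omega
  calc coverNumber H ≤ ((range t).biUnion C).card := hle
    _ ≤ ∑ j ∈ range t, (C j).card := card_biUnion_le
    _ ≤ ∑ _j ∈ range t, matchingNumber H := sum_le_sum fun j _ => h2 j
    _ = t * matchingNumber H := by rw [sum_const, card_range, smul_eq_mul]

open Classical in
theorem greedy (D : ℕ) (H : Finset (Edge V))
    (hdeg : ∀ e ∈ H, (H.filter (fun f => f ≠ e ∧ ∃ i, e i = f i)).card ≤ D) :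
    ∀ K ⊆ H, ∃ c : Edge V → ℕ, (∀ e ∈ K, c e < D + 1) ∧
      ∀ e ∈ K, ∀ f ∈ K, e ≠ f → (∃ i, e i = f i) → c e ≠ c f := by
  intro K
  induction K using Finset.induction_on with
  | empty => intro _; exact ⟨fun _ => 0, by simp, by simp⟩
  | insert a K ha ih =>
    intro hK
    obtain ⟨c, hc1, hc2⟩ := ih ((subset_insert a K).trans hK)
    have haH : a ∈ H := hK (mem_insert_self a K)
    set Nb := H.filter (fun f => f ≠ a ∧ ∃ i, a i = f i) with hNb
    have hlt : (Nb.image c).card < (range (D + 1)).card := by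
      rw [card_range]
      exact Nat.lt_succ_of_le (card_image_le.trans (hdeg a haH))
    obtain ⟨i, hi, hi'⟩ := exists_mem_notMem_of_card_lt_card hlt
    rw [mem_range] at hi
    have hnew : ∀ f ∈ K, (∃ i, a i = f i) → i ≠ c f := by
      intro f hf hcard hif
      apply hi'
      rw [hif]
      refine mem_image_of_mem _ (mem_filter.2 ⟨hK (mem_insert_of_mem hf), ?_, hcard⟩)
      rintro rfl
      exact ha hf
    refine ⟨Function.update c a i, ?_, ?_⟩
    · intro e he
      by_cases hea : e = a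
      · subst hea; rw [Function.update_self]; exact hi
      · rw [Function.update_of_ne hea]
        exact hc1 e ((mem_insert.1 he).resolve_left hea)
    · intro e he f hf hne hcard
      by_cases hea : e = a
      · subst hea
        have hfe : f ≠ e := fun h => hne h.symm
        rw [Function.update_self, Function.update_of_ne hfe]
        exact hnew f ((mem_insert.1 hf).resolve_left hfe) hcard
      · by_cases hfa : f = a
        · subst hfa
          rw [Function.update_self, Function.update_of_ne hea]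
          obtain ⟨k, hk⟩ := hcard
          exact (hnew e ((mem_insert.1 he).resolve_left hea) ⟨k, hk.symm⟩).symm
        · rw [Function.update_of_ne hea, Function.update_of_ne hfa]
          exact hc2 e ((mem_insert.1 he).resolve_left hea) f ((mem_insert.1 hf).resolve_left hfa)
            hne hcard

open Classical in
theorem result :
    (∀ (r : ℕ) (V : Fin r → Type) (H : Finset (Edge V)) (m : ℕ), 1 ≤ r →
      (∃ c : Edge V → ℕ, (∀ e ∈ H, c e < m) ∧
        ∀ e ∈ H, ∀ f ∈ H, e ≠ f → (∃ i, e i = f i) → c e ≠ c f) →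
      coverNumber H ≤ (m + 1) / 2 * matchingNumber H) ∧
    (∀ (V : Fin 5 → Type) (H : Finset (Edge V)),
      ((∃ c : Edge V → ℕ, (∀ e ∈ H, c e < 8) ∧
          ∀ e ∈ H, ∀ f ∈ H, e ≠ f → (∃ i, e i = f i) → c e ≠ c f) ∨
        (∀ e ∈ H, (H.filter (fun f => f ≠ e ∧ ∃ i, e i = f i)).card ≤ 7)) →
      coverNumber H ≤ 4 * matchingNumber H) := by
  refine ⟨?_, ?_⟩
  · rintro r V H m hr ⟨c, h1, h2⟩
    exact colour_bound hr m H c h1 h2
  · rintro V H (⟨c, h1, h2⟩ | h)
    · have := colour_bound (by norm_num) 8 H c h1 h2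
      simpa using this
    · obtain ⟨c, h1, h2⟩ := greedy 7 H h H (Subset.refl H)
      have := colour_bound (by norm_num) 8 H c h1 h2
      simpa using this

end Pool.Agent.Results.MP_3edce6_co.SmallChromaticIndex
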